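import Pool.Agent.J4H57.TL.Lin

/-!
# The exceptional configuration (helper57): job EXC of the project TL of helper13
-/

set_option autoImplicit false

open FF

namespace Pool.Agent.J4H57.TL

open Pool.Agent.J4H13.LA Pool.Agent.J4H13.BC Pool.Agent.J4H13.TL Pool.Agent.W602.GT
  Pool.Agent.W603.LV

variable {K : Type} [Field K] [Algebra ℂ K]

/-- the vector with the coordinates `a`, `b` at `j + 1`, `j + 2` -/
noncomputable def vc (j : Fin 3) (a b : ℂ) : V3 :=
  a • (Pi.single (j + 1) 1 : V3) + b • (Pi.single (j + 2) 1 : V3)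

lemma vc_self (j : Fin 3) (a b : ℂ) : vc j a b j = 0 := by
  fin_cases j <;> simp [vc]

lemma vc_one (j : Fin 3) (a b : ℂ) : vc j a b (j + 1) = a := by
  fin_cases j <;> simp [vc]

lemma vc_two (j : Fin 3) (a b : ℂ) : vc j a b (j + 2) = b := by
  fin_cases j <;> simp [vc]

lemma fin3_ne (j : Fin 3) : j + 1 ≠ j + 2 := by
  revert j
  decide

lemma fin3_cases {i j : Fin 3} (h : i ≠ j) : i = j + 1 ∨ i = j + 2 := by
  revert i j
  decide

lemma vc_ne {i j : Fin 3} (h : i ≠ j) {a b : ℂ} (ha : a ≠ 0) (hb : b ≠ 0) : vc j a b i ≠ 0 := by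
  rcases fin3_cases h with rfl | rfl
  · rw [vc_one]; exact ha
  · rw [vc_two]; exact hb

lemma vc_li {i j : Fin 3} (h : i ≠ j) {a b a' b' : ℂ} (ha : a ≠ 0) (hb : b ≠ 0) (ha' : a' ≠ 0)
    (hb' : b' ≠ 0) : LinearIndependent ℂ ![vc i a b, vc j a' b'] := by
  rw [LinearIndependent.pair_iff]
  intro s t hst
  have h1 := congrFun hst j
  have h2 := congrFun hst i
  simp only [Pi.add_apply, Pi.smul_apply, smul_eq_mul, Pi.zero_apply] at h1 h2
  rw [vc_self, mul_zero, add_zero] at h1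
  rw [vc_self, mul_zero, zero_add] at h2
  exact ⟨(mul_eq_zero.1 h1).resolve_right (vc_ne (Ne.symm h) ha hb),
    (mul_eq_zero.1 h2).resolve_right (vc_ne h ha' hb')⟩

lemma vc_li_self (j : Fin 3) {a b a' b' : ℂ} {e f : V3}
    (h : LinearIndependent ℂ ![b • e + a • f, b' • e + a' • f]) :
    LinearIndependent ℂ ![vc j a b, vc j a' b'] := by
  rw [LinearIndependent.pair_iff] at h ⊢
  intro s t hst
  have h1 := congrFun hst (j + 1)
  have h2 := congrFun hst (j + 2)
  simp only [Pi.add_apply, Pi.smul_apply, smul_eq_mul, Pi.zero_apply] at h1 h2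
  rw [vc_one, vc_one] at h1
  rw [vc_two, vc_two] at h2
  apply h s t
  have e1 : s • (b • e + a • f) + t • (b' • e + a' • f) =
      (s * b + t * b') • e + (s * a + t * a') • f := by
    simp only [smul_add, smul_smul, add_smul]
    abel
  rw [e1, h1, h2, zero_smul, zero_smul, add_zero]

lemma gp_eq {z : Fin 3 → K} (h0 : z 0 ≠ 0) (i : Fin 3) :
    gp (z 0 / z 1) (z 0 / z 2) i = z 0 / z i := by
  fin_cases i
  · change (1 : K) = z 0 / z 0
    rw [div_self h0]
  · rfl
  · rfl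

theorem t_EXC : S_LIN → S_EXC := by
  intro hLIN K _ _ x y hxy L₀ hx hy n l w hl hconf v hv hv3
  classical
  obtain ⟨b, c, d, V, F, hw, hbij, hV, hF, hcF⟩ := hconf
  -- the indices are different
  have hinj := hbij.injective
  have hbb : ∀ {i j : Fin 3}, i ≠ j → b i ≠ b j := fun hij h =>
    hij (Sum.inl_injective (hinj (show Sum.elim b (Sum.elim c d) (Sum.inl _) =
      Sum.elim b (Sum.elim c d) (Sum.inl _) from h)))
  have hcb : ∀ i j : Fin 3, c i ≠ b j := fun i j h => by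
    have h1 := hinj (show Sum.elim b (Sum.elim c d) (Sum.inr (Sum.inl i)) =
      Sum.elim b (Sum.elim c d) (Sum.inl j) from h)
    exact absurd h1 (by simp)
  have hdb : ∀ i j : Fin 3, d i ≠ b j := fun i j h => by
    have h1 := hinj (show Sum.elim b (Sum.elim c d) (Sum.inr (Sum.inr i)) =
      Sum.elim b (Sum.elim c d) (Sum.inl j) from h)
    exact absurd h1 (by simp)
  have hcd : ∀ i j : Fin 3, c i ≠ d j := fun i j h => by
    have h1 := hinj (show Sum.elim b (Sum.elim c d) (Sum.inr (Sum.inl i)) =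
      Sum.elim b (Sum.elim c d) (Sum.inr (Sum.inr j)) from h)
    exact absurd h1 (by simp)
  have hcc : ∀ {i j : Fin 3}, i ≠ j → c i ≠ c j := fun {i j} hij h => by
    have h1 := hinj (show Sum.elim b (Sum.elim c d) (Sum.inr (Sum.inl i)) =
      Sum.elim b (Sum.elim c d) (Sum.inr (Sum.inl j)) from h)
    exact hij (Sum.inl_injective (Sum.inr_injective h1))
  have hl0 : ∀ i, l i ≠ 0 := by
    intro i
    by_cases h : i = b 0
    · exact (hl i (b 1) (by rw [h]; exact hbb (by decide))).ne_zero 0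
    · exact (hl i (b 0) h).ne_zero 0
  -- the planes
  have hplane : ∀ j : Fin 3, l (c j) ∈ pt l (b (j + 1)) (b (j + 2)) ∧
      l (d j) ∈ pt l (b (j + 1)) (b (j + 2)) ∧ l (b j) ∉ pt l (b (j + 1)) (b (j + 2)) := by
    intro j
    obtain ⟨h1, h2, h3, h4, h5, h6⟩ := hV j
    obtain ⟨p, q, hpq, hVe⟩ := mem_pts.1 h1
    rw [hVe, mem_thr] at h2 h3 h4 h5 h6
    have h7 : pt l p q = pt l (b (j + 1)) (b (j + 2)) :=
      eq_pt (finrank_pt (hl p q hpq)).le (hl _ _ (hbb (fin3_ne j))) h2 h3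
    rw [h7] at h4 h5 h6
    exact ⟨h4, h5, h6⟩
  have hcoef : ∀ j : Fin 3, ∃ α β : ℂ, α ≠ 0 ∧ β ≠ 0 ∧
      l (c j) = α • l (b (j + 1)) + β • l (b (j + 2)) := by
    intro j
    obtain ⟨α, β, h⟩ := Submodule.mem_span_pair.1 (hplane j).1
    refine ⟨α, β, ?_, ?_, h.symm⟩
    · rintro rfl
      rw [zero_smul, zero_add] at h
      have h1 := LinearIndependent.pair_iff.1 (hl _ _ (hcb j (j + 2))) 1 (-β) (by
        rw [← h, one_smul, neg_smul, add_neg_cancel])
      exact one_ne_zero h1.1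
    · rintro rfl
      rw [zero_smul, add_zero] at h
      have h1 := LinearIndependent.pair_iff.1 (hl _ _ (hcb j (j + 1))) 1 (-α) (by
        rw [← h, one_smul, neg_smul, add_neg_cancel])
      exact one_ne_zero h1.1
  have hcoef' : ∀ j : Fin 3, ∃ α β : ℂ, α ≠ 0 ∧ β ≠ 0 ∧
      l (d j) = α • l (b (j + 1)) + β • l (b (j + 2)) := by
    intro j
    obtain ⟨α, β, h⟩ := Submodule.mem_span_pair.1 (hplane j).2.1
    refine ⟨α, β, ?_, ?_, h.symm⟩
    · rintro rfl
      rw [zero_smul, zero_add] at h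
      have h1 := LinearIndependent.pair_iff.1 (hl _ _ (hdb j (j + 2))) 1 (-β) (by
        rw [← h, one_smul, neg_smul, add_neg_cancel])
      exact one_ne_zero h1.1
    · rintro rfl
      rw [zero_smul, add_zero] at h
      have h1 := LinearIndependent.pair_iff.1 (hl _ _ (hdb j (j + 1))) 1 (-α) (by
        rw [← h, one_smul, neg_smul, add_neg_cancel])
      exact one_ne_zero h1.1
  choose α β hα hβ hc using hcoef
  choose α' β' hα' hβ' hd using hcoef'
  have hm : LinearIndependent ℂ ![l (b 0), l (b 1), l (b 2)] :=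
    li_three (hl _ _ (hbb (by decide))) (hplane 2).2.2
  -- the relation between the lines `c`
  obtain ⟨p, q, hpq⟩ : ∃ p q : ℂ, p • l (c 0) + q • l (c 1) = l (c 2) := by
    obtain ⟨p, q, hpq, hFe⟩ := mem_pts.1 hF
    have h1 := hcF 0
    have h2 := hcF 1
    have h3 := hcF 2
    rw [hFe, mem_thr] at h1 h2 h3
    have h7 : pt l p q = pt l (c 0) (c 1) :=
      eq_pt (finrank_pt (hl p q hpq)).le (hl _ _ (hcc (by decide))) h1 h2
    rw [h7] at h3
    exact Submodule.mem_span_pair.1 h3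
  have hrel : α 2 = q * β 1 ∧ β 2 = p * α 0 ∧ p * β 0 + q * α 1 = 0 := by
    have h1 : (q * β 1 - α 2) • l (b 0) + (p * α 0 - β 2) • l (b 1) +
        (p * β 0 + q * α 1) • l (b 2) = 0 := by
      have h2 := hc 0
      have h3 := hc 1
      have h4 := hc 2
      change l (c 0) = α 0 • l (b 1) + β 0 • l (b 2) at h2
      change l (c 1) = α 1 • l (b 2) + β 1 • l (b 0) at h3
      change l (c 2) = α 2 • l (b 0) + β 2 • l (b 1) at h4
      rw [h2, h3, h4] at hpq
      rw [← sub_eq_zero] at hpq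
      rw [← hpq]
      simp only [smul_add, smul_smul, add_smul, sub_smul]
      abel
    have h2 := Fintype.linearIndependent_iff.1 hm
      ![q * β 1 - α 2, p * α 0 - β 2, p * β 0 + q * α 1] (by
        rw [Fin.sum_univ_three]
        exact h1)
    refine ⟨?_, ?_, h2 2⟩
    · have := h2 0
      exact (sub_eq_zero.1 this).symm
    · have := h2 1
      exact (sub_eq_zero.1 this).symm
  -- the Cremona transformation
  obtain ⟨z, hz⟩ : ∃ z : Fin 3 → K, ∀ i, z i = ev (gp x y) (l (b i)) := ⟨_, fun i => rfl⟩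
  have hz0 : ∀ i, z i ≠ 0 := fun i => by
    rw [hz]
    exact ev_gp_ne_zero hxy (hl0 _)
  have hzL : ∀ L : IntermediateField ℂ K, z 0 / z 1 ∈ L → z 0 / z 2 ∈ L →
      x ∈ L ∧ y ∈ L ∧ ∀ i, z i ∈ L := by
    intro L h1 h2
    have h3 : z 1 / z 0 ∈ L := by
      have := inv_mem h1
      rwa [inv_div] at this
    have h4 : z 2 / z 0 ∈ L := by
      have := inv_mem h2
      rwa [inv_div] at this
    obtain ⟨h5, h6, h7⟩ := lin_mem hxy hm (L := L) (by
      rw [hz, hz] at h3
      exact h3) (by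
      rw [hz, hz] at h4
      exact h4)
    have h8 : z 0 ∈ L := by
      rw [hz]
      exact h5
    refine ⟨h6, h7, fun i => ?_⟩
    fin_cases i
    · exact h8
    · change z 1 ∈ L
      have h9 : z 1 = z 1 / z 0 * z 0 := by
        have := hz0 0
        field_simp
      rw [h9]
      exact mul_mem h3 h8
    · change z 2 ∈ L
      have h9 : z 2 = z 2 / z 0 * z 0 := by
        have := hz0 0
        field_simp
      rw [h9]
      exact mul_mem h4 h8
  obtain ⟨X, hX⟩ : ∃ X, X = z 0 / z 1 := ⟨_, rfl⟩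
  obtain ⟨Y, hY⟩ : ∃ Y, Y = z 0 / z 2 := ⟨_, rfl⟩
  rw [← hX, ← hY] at hzL
  have hX1 : X ∈ IntermediateField.adjoin ℂ {X, Y} := IntermediateField.subset_adjoin _ _ (by simp)
  have hY1 : Y ∈ IntermediateField.adjoin ℂ {X, Y} := IntermediateField.subset_adjoin _ _ (by simp)
  have hXY : AlgebraicIndependent ℂ ![X, Y] :=
    algInd_of_mem hxy (hzL _ hX1 hY1).1 (hzL _ hX1 hY1).2.1
  have hgp : ∀ i, gp X Y i = z 0 / z i := fun i => by
    rw [hX, hY]
    exact gp_eq (hz0 0) i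
  have hzL0 : ∀ i, z i ∈ L₀ := fun i => by
    rw [hz]
    exact ev_mem hx hy _
  have hXL : X ∈ L₀ := hX ▸ div_mem (hzL0 _) (hzL0 _)
  have hYL : Y ∈ L₀ := hY ▸ div_mem (hzL0 _) (hzL0 _)
  -- the new lines
  have hev : ∀ (j : Fin 3) (A B : ℂ), ev (gp X Y) (vc j B A) =
      z 0 * ev (gp x y) (A • l (b (j + 1)) + B • l (b (j + 2))) / (z (j + 1) * z (j + 2)) := by
    intro j A B
    have h1 := hz0 (j + 1)
    have h2 := hz0 (j + 2)
    rw [vc, ev_add, ev_add, ev_smul, ev_smul, ev_smul, ev_smul, ev_single, ev_single, hgp, hgp,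
      ← hz, ← hz]
    field_simp
    ring
  obtain ⟨l', hl'⟩ : ∃ l' : Fin (3 + 3) → V3, l' = Fin.append (fun j => vc j (β j) (α j))
    (fun j => vc j (β' j) (α' j)) := ⟨_, rfl⟩
  have hl'c : ∀ j : Fin 3, l' (Fin.castAdd 3 j) = vc j (β j) (α j) := fun j => by
    rw [hl', Fin.append_left]
  have hl'd : ∀ j : Fin 3, l' (Fin.natAdd 3 j) = vc j (β' j) (α' j) := fun j => by
    rw [hl', Fin.append_right]
  have hswap : ∀ {A B : V3}, LinearIndependent ℂ ![A, B] → LinearIndependent ℂ ![B, A] := by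
    intro A B h
    rw [LinearIndependent.pair_iff] at h ⊢
    intro s t hst
    have := h t s (by rw [add_comm]; exact hst)
    exact ⟨this.2, this.1⟩
  have hself : ∀ j : Fin 3, LinearIndependent ℂ ![vc j (β j) (α j), vc j (β' j) (α' j)] := by
    intro j
    apply vc_li_self j (e := l (b (j + 1))) (f := l (b (j + 2)))
    rw [← hc, ← hd]
    exact hl _ _ (hcd j j)
  have hli : ∀ i j, i ≠ j → LinearIndependent ℂ ![l' i, l' j] := by
    intro i j
    refine Fin.addCases (fun i => ?_) (fun i => ?_) i <;>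
      refine Fin.addCases (fun j => ?_) (fun j => ?_) j <;> intro hij
    · rw [hl'c, hl'c]
      have h1 : i ≠ j := fun h => hij (by rw [h])
      exact vc_li h1 (hβ _) (hα _) (hβ _) (hα _)
    · rw [hl'c, hl'd]
      by_cases h1 : i = j
      · rw [h1]
        exact hself j
      · exact vc_li h1 (hβ _) (hα _) (hβ' _) (hα' _)
    · rw [hl'c, hl'd]
      by_cases h1 : i = j
      · rw [h1]
        exact hswap (hself j)
      · exact vc_li h1 (hβ' _) (hα' _) (hβ _) (hα _)
    · rw [hl'd, hl'd]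
      have h1 : i ≠ j := fun h => hij (by rw [h])
      exact vc_li h1 (hβ' _) (hα' _) (hβ' _) (hα' _)
  -- the equation
  have hprod : ∏ i, ev (gp x y) (l i) ^ w i =
      (∏ j, z j ^ 2) * ((∏ j, ev (gp x y) (l (c j))) * ∏ j, ev (gp x y) (l (d j))) := by
    rw [← Equiv.prod_comp (Equiv.ofBijective _ hbij)]
    rw [Fintype.prod_sum_type, Fintype.prod_sum_type]
    simp only [Equiv.ofBijective_apply, Sum.elim_inl, Sum.elim_inr]
    congr 1
    · exact Finset.prod_congr rfl fun j _ => by rw [(hw j).1, hz]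
    · congr 1
      · exact Finset.prod_congr rfl fun j _ => by rw [(hw j).2.1, pow_one]
      · exact Finset.prod_congr rfl fun j _ => by rw [(hw j).2.2, pow_one]
  obtain ⟨Z, hZ⟩ : ∃ Z, Z = (z 0 * z 1 * z 2) ^ 2 := ⟨_, rfl⟩
  have hZ0 : Z ≠ 0 := by
    rw [hZ]
    exact pow_ne_zero 2 (mul_ne_zero (mul_ne_zero (hz0 0) (hz0 1)) (hz0 2))
  have hcube : (z 0 ^ 2 / Z * v) ^ 3 = ∏ i, ev (gp X Y) (l' i) ^ 1 := by
    have h0 := hz0 0
    have h1 := hz0 1
    have h2 := hz0 2
    simp only [pow_one]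
    rw [Fin.prod_univ_add]
    simp only [hl'c, hl'd, hev, ← hc, ← hd]
    rw [mul_pow, hv3, hprod, hZ]
    rw [Fin.prod_univ_three, Fin.prod_univ_three, Fin.prod_univ_three, Fin.prod_univ_three,
      Fin.prod_univ_three]
    change _ = (z 0 * _ / (z 1 * z 2) * (z 0 * _ / (z 2 * z 0)) * (z 0 * _ / (z 0 * z 1))) *
      (z 0 * _ / (z 1 * z 2) * (z 0 * _ / (z 2 * z 0)) * (z 0 * _ / (z 0 * z 1)))
    field_simp
  have hNF := hv.mul (div_mem (pow_mem (hzL0 0) 2)
    (hZ ▸ pow_mem (mul_mem (mul_mem (hzL0 0) (hzL0 1)) (hzL0 2)) 2 : Z ∈ L₀))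
  -- the point through three lines
  obtain ⟨U, hU⟩ : ∃ U : Submodule ℂ V3, U = pt l' (Fin.castAdd 3 0) (Fin.castAdd 3 1) := ⟨_, rfl⟩
  have hU2 : Module.finrank ℂ U ≤ 2 := by
    rw [hU]
    exact (finrank_pt (hli _ _ (by decide))).le
  have hmem : ∀ j : Fin 3, l' (Fin.castAdd 3 j) ∈ U := by
    intro j
    rw [hU]
    fin_cases j
    · exact mem_pt_left _ _
    · exact mem_pt_right _ _
    · change l' (Fin.castAdd 3 2) ∈ _
      obtain ⟨h1, h2, h3⟩ := hrel
      refine Submodule.mem_span_pair.2 ⟨α 2 / β 0, β 2 / α 1, ?_⟩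
      rw [hl'c, hl'c, hl'c]
      have g1 := hβ 0
      have g2 := hα 1
      have h4 : α 2 / β 0 * α 0 + β 2 / α 1 * β 1 = 0 := by
        rw [h1, h2]
        field_simp
        linear_combination (α 0 * β 1) * h3
      ext i
      fin_cases i
      · change (α 2 / β 0) * vc 0 (β 0) (α 0) 0 + (β 2 / α 1) * vc 1 (β 1) (α 1) (1 + 2) =
          vc 2 (β 2) (α 2) (2 + 1)
        rw [vc_self, vc_two, vc_one]
        field_simp
        ring
      · change (α 2 / β 0) * vc 0 (β 0) (α 0) (0 + 1) + (β 2 / α 1) * vc 1 (β 1) (α 1) 1 =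
          vc 2 (β 2) (α 2) (2 + 2)
        rw [vc_self, vc_two, vc_one]
        field_simp
        ring
      · change (α 2 / β 0) * vc 0 (β 0) (α 0) (0 + 2) + (β 2 / α 1) * vc 1 (β 1) (α 1) (1 + 1) =
          vc 2 (β 2) (α 2) 2
        rw [vc_self, vc_two, vc_one]
        exact h4
  have hthr : (thr l' U)ᶜ.card ≤ 3 := by
    have h1 : Finset.univ.image (Fin.castAdd 3 : Fin 3 → Fin (3 + 3)) ⊆ thr l' U := by
      intro i hi
      obtain ⟨j, -, rfl⟩ := Finset.mem_image.1 hi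
      exact (mem_thr l').2 (hmem j)
    have h2 := Finset.card_le_card h1
    rw [Finset.card_image_of_injective _ (Fin.castAdd_injective 3 3), Finset.card_univ,
      Fintype.card_fin] at h2
    rw [Finset.card_compl, Fintype.card_fin]
    omega
  have key := hLIN hXY hXL hYL (n := 3 + 3) (k := 2) (l := l') (w := fun _ => 1) (by norm_num) hli
    (fun _ => Or.inl rfl) (by simp) hNF hcube (U := U) hU2 (by
      rcases (by omega : (thr l' U)ᶜ.card ≤ 2 ∨ (thr l' U)ᶜ.card = 3) with h | h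
      · exact Or.inl h
      · exact Or.inr ⟨h, 1, fun _ _ => rfl⟩)
  refine good_of key fun L g1 g2 g3 => ⟨(hzL L g1 g2).1, (hzL L g1 g2).2.1, ?_⟩
  have hzi := (hzL L g1 g2).2.2
  have hZL : Z ∈ L := hZ ▸ pow_mem (mul_mem (mul_mem (hzi 0) (hzi 1)) (hzi 2)) 2
  have h5 : v = (z 0 ^ 2 / Z * v) * (Z / z 0 ^ 2) := by
    have := hz0 0
    field_simp
  rw [h5]
  exact mul_mem g3 (div_mem hZL (pow_mem (hzi 0) 2))

end Pool.Agent.J4H57.TL
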