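import Pool.Agent.J4H57.TL.Pen

/-!
# Pencils of lines (helper57): job LIN of the project TL of helper13
-/

set_option autoImplicit false

open FF

namespace Pool.Agent.J4H57.TL

open Pool.Agent.J4H13.LA Pool.Agent.J4H13.BC Pool.Agent.J4H13.TL Pool.Agent.W602.GT
  Pool.Agent.W603.LV

variable {K : Type} [Field K] [Algebra ℂ K]

lemma lin_aux (hPEN : S_PEN) {x y : K} (hxy : AlgebraicIndependent ℂ ![x, y])
    {L₀ : IntermediateField ℂ K} (hx : x ∈ L₀) (hy : y ∈ L₀) {n k : ℕ} {l : Fin n → V3}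
    {w : Fin n → ℕ} (hl : ∀ i j, i ≠ j → LinearIndependent ℂ ![l i, l j]) (hl0 : ∀ i, l i ≠ 0)
    (hw : IsWt w) (hsum : ∑ i, w i = 3 * k) {v : K} (hv : NoForms L₀ v)
    (hv3 : v ^ 3 = ∏ i, ev (gp x y) (l i) ^ w i) {i₀ j₀ : Fin n} (hij : i₀ ≠ j₀)
    (hcomp : (thr l (pt l i₀ j₀))ᶜ.card ≤ 2 ∨ (thr l (pt l i₀ j₀))ᶜ.card = 3 ∧
      ∃ e, ∀ i ∉ thr l (pt l i₀ j₀), w i = e) : Good x y v := by
  classical
  have h01 : LinearIndependent ℂ ![l i₀, l j₀] := hl i₀ j₀ hij
  obtain ⟨m₂, hm₂⟩ := exists_linearIndependent_cons_of_lt_finrank (R := ℂ) (M := V3) h01 (by simp)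
  have hm' : LinearIndependent ℂ ![m₂, l i₀, l j₀] := hm₂
  have hm : LinearIndependent ℂ ![l i₀, l j₀, m₂] := by
    have h2 := hm'.comp ![1, 2, 0] (by decide)
    convert h2 using 1
    ext i
    fin_cases i <;> rfl
  obtain ⟨M₀, hM₀⟩ : ∃ M₀, M₀ = ev (gp x y) (l i₀) := ⟨_, rfl⟩
  have hM0 : M₀ ≠ 0 := hM₀ ▸ ev_gp_ne_zero hxy (hl0 i₀)
  obtain ⟨s, hs⟩ : ∃ s, s = ev (gp x y) (l j₀) / ev (gp x y) (l i₀) := ⟨_, rfl⟩
  obtain ⟨u, hu⟩ : ∃ u, u = ev (gp x y) m₂ / ev (gp x y) (l i₀) := ⟨_, rfl⟩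
  have hlin : ∀ L : IntermediateField ℂ K, s ∈ L → u ∈ L → M₀ ∈ L ∧ x ∈ L ∧ y ∈ L := by
    intro L h1 h2
    have := lin_mem hxy hm (L := L) (by rw [hs] at h1; exact h1) (by rw [hu] at h2; exact h2)
    rw [hM₀]
    exact this
  have hs1 : s ∈ IntermediateField.adjoin ℂ {s, u} := IntermediateField.subset_adjoin _ _ (by simp)
  have hu1 : u ∈ IntermediateField.adjoin ℂ {s, u} := IntermediateField.subset_adjoin _ _ (by simp)
  have hsu : AlgebraicIndependent ℂ ![s, u] :=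
    algInd_of_mem hxy (hlin _ hs1 hu1).2.1 (hlin _ hs1 hu1).2.2
  have hM₀L : M₀ ∈ L₀ := hM₀ ▸ ev_mem hx hy _
  have hsL : s ∈ L₀ := hs ▸ div_mem (ev_mem hx hy _) (ev_mem hx hy _)
  have huL : u ∈ L₀ := hu ▸ div_mem (ev_mem hx hy _) (ev_mem hx hy _)
  have ej : ev (gp x y) (l j₀) = M₀ * s := by rw [hs, ← hM₀]; field_simp
  have e2 : ev (gp x y) m₂ = M₀ * u := by rw [hu, ← hM₀]; field_simp
  obtain ⟨T, hT⟩ : ∃ T, T = thr l (pt l i₀ j₀) := ⟨_, rfl⟩
  rw [← hT] at hcomp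
  -- the lines through the point
  have hin : ∀ i ∈ T, ∃ q : Polynomial ℂ, q ≠ 0 ∧
      ev (gp x y) (l i) = M₀ * Polynomial.aeval s q := by
    intro i hi
    rw [hT, mem_thr] at hi
    obtain ⟨α, β, hαβ⟩ := Submodule.mem_span_pair.1 hi
    have h1 : ev (gp x y) (l i) = M₀ * Polynomial.aeval s
        (Polynomial.C α + Polynomial.C β * Polynomial.X) := by
      rw [← hαβ, ev_add, ev_smul, ev_smul, ej, ← hM₀, map_add, map_mul, Polynomial.aeval_C,
        Polynomial.aeval_C, Polynomial.aeval_X]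
      ring
    refine ⟨_, ?_, h1⟩
    intro h0
    rw [h0, map_zero, mul_zero] at h1
    exact ev_gp_ne_zero hxy (hl0 i) h1
  -- the other lines
  have hout : ∀ i ∉ T, ∃ (γ : ℂ) (lam : Polynomial ℂ), γ ≠ 0 ∧
      ev (gp x y) (l i) = M₀ * algebraMap ℂ K γ * (u - Polynomial.aeval s lam) := by
    intro i hi
    rw [hT, mem_thr] at hi
    let B : Module.Basis (Fin 3) ℂ V3 := basisOfLinearIndependentOfCardEqFinrank hm (by simp)
    have hB : ∀ i, B i = ![l i₀, l j₀, m₂] i := by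
      intro i
      exact congrFun (coe_basisOfLinearIndependentOfCardEqFinrank hm _) i
    obtain ⟨α, hα⟩ : ∃ α, α = B.repr (l i) 0 := ⟨_, rfl⟩
    obtain ⟨β, hβ⟩ : ∃ β, β = B.repr (l i) 1 := ⟨_, rfl⟩
    obtain ⟨γ, hγ⟩ : ∃ γ, γ = B.repr (l i) 2 := ⟨_, rfl⟩
    have hwi : l i = α • l i₀ + β • l j₀ + γ • m₂ := by
      conv_lhs => rw [← B.sum_repr (l i)]
      rw [Fin.sum_univ_three, hB, hB, hB, hα, hβ, hγ]
      rfl
    have hγ0 : γ ≠ 0 := by
      intro h0
      apply hi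
      rw [hwi, h0, zero_smul, add_zero]
      exact add_mem (Submodule.smul_mem _ _ (mem_pt_left _ _))
        (Submodule.smul_mem _ _ (mem_pt_right _ _))
    have hγK : algebraMap ℂ K γ ≠ 0 := (map_ne_zero _).2 hγ0
    refine ⟨γ, -(Polynomial.C (α / γ) + Polynomial.C (β / γ) * Polynomial.X), hγ0, ?_⟩
    rw [hwi, ev_add, ev_add, ev_smul, ev_smul, ev_smul, ej, e2, ← hM₀, map_neg, map_add, map_mul,
      Polynomial.aeval_C, Polynomial.aeval_C, Polynomial.aeval_X, map_div₀, map_div₀]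
    field_simp
    ring
  choose! q hq0 hq using hin
  choose! γ lam hγ0 hγ using hout
  have hinj : ∀ i ∉ T, ∀ j ∉ T, lam i = lam j → i = j := by
    intro i hi j hj hlam
    by_contra hne
    have h1 := hγ i hi
    have h2 := hγ j hj
    rw [← hlam] at h2
    have h3 : ev (gp x y) (γ j • l i + (-γ i) • l j) = 0 := by
      rw [ev_add, ev_smul, ev_smul, h1, h2, map_neg]
      ring
    have h4 : γ j • l i + (-γ i) • l j = 0 := by
      by_contra h5
      exact ev_gp_ne_zero hxy h5 h3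
    exact hγ0 j hj (LinearIndependent.pair_iff.1 (hl i j hne) _ _ h4).1
  -- the product
  obtain ⟨Q, hQ⟩ : ∃ Q : Fin n → Polynomial ℂ, Q = fun i => if i ∈ T then q i else
    Polynomial.C (γ i) := ⟨_, rfl⟩
  have hQ0 : ∀ i, Q i ≠ 0 := by
    intro i
    rw [hQ]
    change (if i ∈ T then q i else Polynomial.C (γ i)) ≠ 0
    split_ifs with h
    · exact hq0 i h
    · exact Polynomial.C_ne_zero.2 (hγ0 i h)
  have hfac : ∀ i, ev (gp x y) (l i) = M₀ * Polynomial.aeval s (Q i) *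
      (if i ∈ T then 1 else u - Polynomial.aeval s (lam i)) := by
    intro i
    rw [hQ]
    change _ = M₀ * Polynomial.aeval s (if i ∈ T then q i else Polynomial.C (γ i)) * _
    split_ifs with h
    · rw [hq i h, mul_one]
    · rw [hγ i h, Polynomial.aeval_C]
  have hprod : ∏ i, ev (gp x y) (l i) ^ w i = M₀ ^ (3 * k) *
      Polynomial.aeval s (∏ i, Q i ^ w i) *
        ∏ i ∈ Tᶜ, (u - Polynomial.aeval s (lam i)) ^ w i := by
    have h1 : ∏ i ∈ Tᶜ, (u - Polynomial.aeval s (lam i)) ^ w i =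
        ∏ i, (if i ∈ T then 1 else u - Polynomial.aeval s (lam i)) ^ w i := by
      rw [← Finset.prod_mul_prod_compl T (fun i =>
        (if i ∈ T then (1 : K) else u - Polynomial.aeval s (lam i)) ^ w i)]
      have h2 : ∏ i ∈ T, (if i ∈ T then (1 : K) else u - Polynomial.aeval s (lam i)) ^ w i = 1 := by
        apply Finset.prod_eq_one
        intro i hi
        rw [if_pos hi, one_pow]
      rw [h2, one_mul]
      apply Finset.prod_congr rfl
      intro i hi
      rw [if_neg (Finset.mem_compl.1 hi)]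
    rw [h1, map_prod, ← hsum, ← Finset.prod_pow_eq_pow_sum, ← Finset.prod_mul_distrib,
      ← Finset.prod_mul_distrib]
    apply Finset.prod_congr rfl
    intro i _
    rw [hfac i, map_pow, mul_pow, mul_pow]
  -- the equation of the pencil
  have hv1 : (v / M₀ ^ k) ^ 3 = Polynomial.aeval s (∏ i, Q i ^ w i) *
      ∏ i ∈ Tᶜ, (u - Polynomial.aeval s (lam i)) ^ w i := by
    rw [div_pow, hv3, hprod, ← pow_mul, mul_comm k 3]
    field_simp
  have hNF : NoForms L₀ (v / M₀ ^ k) := by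
    have h1 := hv.mul (inv_mem (pow_mem hM₀L k))
    have h2 : (M₀ ^ k)⁻¹ * v = v / M₀ ^ k := by
      rw [div_eq_mul_inv, mul_comm]
    rwa [h2] at h1
  obtain ⟨m, hm⟩ : ∃ m, m = Tᶜ.card := ⟨_, rfl⟩
  have e : Fin m ≃ (Tᶜ : Finset (Fin n)) := (Finset.equivFinOfCardEq hm.symm).symm
  have hnot : ∀ i : Fin m, ((e i : Fin n)) ∉ T := fun i => Finset.mem_compl.1 (e i).2
  have key := hPEN hsu hsL huL (f := ∏ i, Q i ^ w i)
    (Finset.prod_ne_zero_iff.2 fun i _ => pow_ne_zero _ (hQ0 i)) (m := m)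
    (lam := fun i => lam (e i)) (w := fun i => w (e i))
    (fun i j h => e.injective (Subtype.ext (hinj _ (hnot i) _ (hnot j) h)))
    (fun i => hw _) (by
      rw [← hm] at hcomp
      rcases hcomp with h | ⟨h, a, ha⟩
      · exact Or.inl h
      · exact Or.inr ⟨h, a, fun i => ha _ (hnot i)⟩) hNF (by
      rw [hv1]
      congr 1
      rw [← Finset.prod_coe_sort]
      exact (Equiv.prod_comp e
        (fun i : (Tᶜ : Finset (Fin n)) => (u - Polynomial.aeval s (lam i)) ^ w i)).symm)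
  refine good_of key fun L g1 g2 g3 => ⟨(hlin L g1 g2).2.1, (hlin L g1 g2).2.2, ?_⟩
  have h5 : v = v / M₀ ^ k * M₀ ^ k := by field_simp
  rw [h5]
  exact mul_mem g3 (pow_mem (hlin L g1 g2).1 k)

theorem t_LIN : S_PEN → S_LIN := by
  intro hPEN K _ _ x y hxy L₀ hx hy n k l w hn hl hw hsum v hv hv3 U hU hcomp
  classical
  have hl0 : ∀ i, l i ≠ 0 := by
    intro i
    obtain ⟨j, hj⟩ : ∃ j : Fin n, i ≠ j := by
      by_cases h0 : i = ⟨0, by omega⟩
      · refine ⟨⟨1, by omega⟩, ?_⟩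
        rw [h0]
        intro h
        simp at h
      · exact ⟨_, h0⟩
    exact (hl i j hj).ne_zero 0
  rcases Nat.lt_or_ge 1 (thr l U).card with h | h
  · obtain ⟨i, hi, j, hj, hij⟩ := Finset.one_lt_card.1 h
    have hUpt : U = pt l i j := eq_pt hU (hl i j hij) ((mem_thr l).1 hi) ((mem_thr l).1 hj)
    rw [hUpt] at hcomp
    exact lin_aux hPEN hxy hx hy hl hl0 hw hsum hv hv3 hij hcomp
  · have hn4 : n ≤ 4 := by
      have h1 : (thr l U)ᶜ.card + (thr l U).card = n := by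
        rw [Finset.card_compl, Fintype.card_fin]
        have := Finset.card_le_univ (thr l U)
        rw [Fintype.card_fin] at this
        omega
      rcases hcomp with h2 | ⟨h2, -⟩ <;> omega
    have hij : (⟨0, by omega⟩ : Fin n) ≠ ⟨1, by omega⟩ := by
      intro h
      simp at h
    refine lin_aux hPEN hxy hx hy hl hl0 hw hsum hv hv3 hij (Or.inl ?_)
    have h1 : ({⟨0, by omega⟩, ⟨1, by omega⟩} : Finset (Fin n)) ⊆
        thr l (pt l ⟨0, by omega⟩ ⟨1, by omega⟩) := by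
      intro i hi
      rw [mem_thr]
      rw [Finset.mem_insert, Finset.mem_singleton] at hi
      rcases hi with rfl | rfl
      · exact mem_pt_left _ _
      · exact mem_pt_right _ _
    have h2 := Finset.card_le_card h1
    rw [Finset.card_pair hij] at h2
    rw [Finset.card_compl, Fintype.card_fin]
    omega

end Pool.Agent.J4H57.TL
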