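import Pool.Agent.J4H13.TL.Jobs

/-!
# Pencils (helper57): job PEN of the project TL of helper13
-/

set_option autoImplicit false

open FF

namespace Pool.Agent.J4H57.TL

open Pool.Agent.J4H13.LA Pool.Agent.J4H13.BC Pool.Agent.J4H13.TL Pool.Agent.W602.GT
  Pool.Agent.W603.LV

variable {K : Type} [Field K] [Algebra ℂ K]

/-- fields generated by two elements -/
lemma good_of_two {s u v t z : K} (h : AlgebraicIndependent ℂ ![s, u])
    (hs : s ∈ IntermediateField.adjoin ℂ {t, z}) (hu : u ∈ IntermediateField.adjoin ℂ {t, z})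
    (hv : v ∈ IntermediateField.adjoin ℂ {t, z}) : Good s u v :=
  ⟨_, hs, hu, hv, 2, embed_of_two h hs hu⟩

lemma good_of {s u s' u' v v' : K} (h : Good s u v)
    (hL : ∀ L : IntermediateField ℂ K, s ∈ L → u ∈ L → v ∈ L → s' ∈ L ∧ u' ∈ L ∧ v' ∈ L) :
    Good s' u' v' := by
  obtain ⟨L, h1, h2, h3, m, h4⟩ := h
  obtain ⟨g1, g2, g3⟩ := hL L h1 h2 h3
  exact ⟨L, g1, g2, g3, m, h4⟩

lemma aeval_mem (L : IntermediateField ℂ K) {s : K} (hs : s ∈ L) (f : Polynomial ℂ) :
    Polynomial.aeval s f ∈ L := by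
  rw [Polynomial.aeval_eq_sum_range]
  exact sum_mem fun i _ => L.smul_mem (pow_mem hs i)

lemma aeval_ne {s u : K} (h : AlgebraicIndependent ℂ ![s, u]) {f : Polynomial ℂ} (hf : f ≠ 0) :
    Polynomial.aeval s f ≠ 0 := by
  have h1 : Transcendental ℂ s := h.transcendental 0
  intro h2
  exact h1 ⟨f, hf, h2⟩

lemma sub_ne {s u : K} (h : AlgebraicIndependent ℂ ![s, u]) (lam : Polynomial ℂ) :
    u - Polynomial.aeval s lam ≠ 0 := by
  intro h0
  have hs : s ∈ IntermediateField.adjoin ℂ {s, s} := IntermediateField.subset_adjoin _ _ (by simp)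
  have hu : u ∈ IntermediateField.adjoin ℂ {s, s} := by
    rw [sub_eq_zero.1 h0]
    exact aeval_mem _ hs _
  have h1 := (algInd_of_mem h hs hu).injective
  have h2 : (0 : Fin 2) = 1 := h1 rfl
  exact absurd h2 (by decide)

/-- two factors of weight 1 -/
lemma pen_two (hLS : S_LS) {s u : K} (h : AlgebraicIndependent ℂ ![s, u])
    {L₀ : IntermediateField ℂ K} (hs : s ∈ L₀) (hu : u ∈ L₀) {f : Polynomial ℂ} (hf : f ≠ 0)
    {l₁ l₂ : Polynomial ℂ} (hl : l₁ ≠ l₂) {v : K} (hv : NoForms L₀ v)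
    (hv3 : v ^ 3 = Polynomial.aeval s f * ((u - Polynomial.aeval s l₁) *
      (u - Polynomial.aeval s l₂))) : Good s u v := by
  have hd : Polynomial.aeval s (l₂ - l₁) ≠ 0 := aeval_ne h (sub_ne_zero.2 hl.symm)
  obtain ⟨δ, hδ⟩ : ∃ δ, δ = Polynomial.aeval s (l₂ - l₁) := ⟨_, rfl⟩
  have hδ' : δ = Polynomial.aeval s l₂ - Polynomial.aeval s l₁ := by rw [hδ, map_sub]
  rw [← hδ] at hd
  obtain ⟨U, hU⟩ : ∃ U, U = (u - Polynomial.aeval s l₁) / δ := ⟨_, rfl⟩
  have hu' : ∀ L : IntermediateField ℂ K, s ∈ L → U ∈ L → u ∈ L := by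
    intro L h1 h2
    have h3 : u = U * δ + Polynomial.aeval s l₁ := by
      rw [hU]; field_simp; ring
    rw [h3, hδ]
    exact add_mem (mul_mem h2 (aeval_mem L h1 _)) (aeval_mem L h1 _)
  have hs1 : s ∈ IntermediateField.adjoin ℂ {s, U} := IntermediateField.subset_adjoin _ _ (by simp)
  have hU1 : U ∈ IntermediateField.adjoin ℂ {s, U} := IntermediateField.subset_adjoin _ _ (by simp)
  have hsU : AlgebraicIndependent ℂ ![s, U] := algInd_of_mem h hs1 (hu' _ hs1 hU1)
  have hU0 : U ∈ L₀ := by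
    rw [hU, hδ]
    exact div_mem (sub_mem hu (aeval_mem _ hs _)) (aeval_mem _ hs _)
  have key := hLS hsU hs hU0 (f := -(f * (l₂ - l₁) ^ 2))
    (neg_ne_zero.2 (mul_ne_zero hf (pow_ne_zero 2 (sub_ne_zero.2 hl.symm)))) hv (by
      rw [hv3, map_neg, map_mul, map_pow, ← hδ, hU]
      have e : u - Polynomial.aeval s l₂ = (u - Polynomial.aeval s l₁) - δ := by rw [hδ']; ring
      rw [e]
      field_simp
      ring)
  exact good_of key fun L h1 h2 h3 => ⟨h1, hu' L h1 h2, h3⟩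

/-- three factors of weight 1 -/
lemma pen_three (hLS : S_LS) {s u : K} (h : AlgebraicIndependent ℂ ![s, u])
    {L₀ : IntermediateField ℂ K} (hs : s ∈ L₀) (hu : u ∈ L₀) {f : Polynomial ℂ} (hf : f ≠ 0)
    {l₁ l₂ l₃ : Polynomial ℂ} (h12 : l₁ ≠ l₂) (h13 : l₁ ≠ l₃) (h23 : l₂ ≠ l₃) {v : K}
    (hv : NoForms L₀ v) (hv3 : v ^ 3 = Polynomial.aeval s f * ((u - Polynomial.aeval s l₁) *
      (u - Polynomial.aeval s l₂) * (u - Polynomial.aeval s l₃))) : Good s u v := by
  have hg1 := sub_ne h l₁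
  have hg2 := sub_ne h l₂
  have hg3 := sub_ne h l₃
  have ha : Polynomial.aeval s (l₂ - l₁) ≠ 0 := aeval_ne h (sub_ne_zero.2 h12.symm)
  have hb : Polynomial.aeval s (l₂ - l₃) ≠ 0 := aeval_ne h (sub_ne_zero.2 h23)
  have hc : Polynomial.aeval s (l₃ - l₁) ≠ 0 := aeval_ne h (sub_ne_zero.2 h13.symm)
  obtain ⟨a, ha'⟩ : ∃ a, a = Polynomial.aeval s (l₂ - l₁) := ⟨_, rfl⟩
  obtain ⟨b, hb'⟩ : ∃ b, b = Polynomial.aeval s (l₂ - l₃) := ⟨_, rfl⟩
  obtain ⟨c, hc'⟩ : ∃ c, c = Polynomial.aeval s (l₃ - l₁) := ⟨_, rfl⟩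
  obtain ⟨g, hg⟩ : ∃ g, g = u - Polynomial.aeval s l₃ := ⟨_, rfl⟩
  rw [← ha'] at ha
  rw [← hb'] at hb
  rw [← hc'] at hc
  have e1 : u - Polynomial.aeval s l₁ = g + c := by
    rw [hg, hc', map_sub]; ring
  have e2 : u - Polynomial.aeval s l₂ = g - b := by
    rw [hg, hb', map_sub]; ring
  have eac : a = b + c := by
    rw [ha', hb', hc', map_sub, map_sub, map_sub]; ring
  rw [← hg] at hg3 hv3
  rw [e1] at hv3 hg1
  rw [e2] at hv3 hg2
  obtain ⟨U, hU⟩ : ∃ U, U = (g + c) * b / (g * a) := ⟨_, rfl⟩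
  have hg' : ∀ L : IntermediateField ℂ K, s ∈ L → U ∈ L → g ∈ L := by
    intro L h1 h2
    have haL : a ∈ L := ha' ▸ aeval_mem L h1 _
    have hbL : b ∈ L := hb' ▸ aeval_mem L h1 _
    have hcL : c ∈ L := hc' ▸ aeval_mem L h1 _
    have h3 : g * (U * a - b) = c * b := by
      rw [hU]; field_simp; ring
    have h4 : U * a - b ≠ 0 := by
      intro h5
      rw [h5, mul_zero] at h3
      exact mul_ne_zero hc hb h3.symm
    rw [eq_div_iff h4 |>.2 h3]
    exact div_mem (mul_mem hcL hbL) (sub_mem (mul_mem h2 haL) hbL)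
  have hu' : ∀ L : IntermediateField ℂ K, s ∈ L → U ∈ L → u ∈ L := by
    intro L h1 h2
    have h3 : u = g + Polynomial.aeval s l₃ := by rw [hg]; ring
    rw [h3]
    exact add_mem (hg' L h1 h2) (aeval_mem L h1 _)
  have hs1 : s ∈ IntermediateField.adjoin ℂ {s, U} := IntermediateField.subset_adjoin _ _ (by simp)
  have hU1 : U ∈ IntermediateField.adjoin ℂ {s, U} := IntermediateField.subset_adjoin _ _ (by simp)
  have hsU : AlgebraicIndependent ℂ ![s, U] := algInd_of_mem h hs1 (hu' _ hs1 hU1)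
  have haL : a ∈ L₀ := ha' ▸ aeval_mem L₀ hs _
  have hbL : b ∈ L₀ := hb' ▸ aeval_mem L₀ hs _
  have hcL : c ∈ L₀ := hc' ▸ aeval_mem L₀ hs _
  have hgL : g ∈ L₀ := hg ▸ sub_mem hu (aeval_mem L₀ hs _)
  have hU0 : U ∈ L₀ := by
    rw [hU]
    exact div_mem (mul_mem (add_mem hgL hcL) hbL) (mul_mem hgL haL)
  have hy := hv.mul (div_mem (mul_mem hbL hcL) hgL)
  have key := hLS hsU hs hU0 (f := f * ((l₂ - l₁) * (l₂ - l₃) * (l₃ - l₁)) ^ 2)
    (mul_ne_zero hf (pow_ne_zero 2 (mul_ne_zero (mul_ne_zero (sub_ne_zero.2 h12.symm)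
      (sub_ne_zero.2 h23)) (sub_ne_zero.2 h13.symm)))) hy (by
      rw [mul_pow, hv3, map_mul, map_pow, map_mul, map_mul, ← ha', ← hb', ← hc', hU]
      have e3 : 1 - (g + c) * b / (g * a) = (g - b) * c / (g * a) := by
        field_simp
        rw [eac]; ring
      rw [e3]
      field_simp)
  refine good_of key fun L h1 h2 h3 => ⟨h1, hu' L h1 h2, ?_⟩
  have hbL' : b ∈ L := hb' ▸ aeval_mem L h1 _
  have hcL' : c ∈ L := hc' ▸ aeval_mem L h1 _
  have h5 : v = (b * c / g * v) * (g / (b * c)) := by field_simp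
  rw [h5]
  exact mul_mem h3 (div_mem (hg' L h1 h2) (mul_mem hbL' hcL'))

/-- the step from the weights 2 to the weights 1 -/
lemma pen_flip {s u : K} (h : AlgebraicIndependent ℂ ![s, u])
    {L₀ : IntermediateField ℂ K} (hs : s ∈ L₀) (hu : u ∈ L₀) {f : Polynomial ℂ} (hf : f ≠ 0)
    {m : ℕ} {lam : Fin m → Polynomial ℂ} {v : K} (hv : NoForms L₀ v)
    (hv3 : v ^ 3 = Polynomial.aeval s f * ∏ i, (u - Polynomial.aeval s (lam i)) ^ 2)
    (hone : ∀ v' : K, NoForms L₀ v' → v' ^ 3 = Polynomial.aeval s (f ^ 2) *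
      ∏ i, (u - Polynomial.aeval s (lam i)) → Good s u v') : Good s u v := by
  have hf0 := aeval_ne h hf
  obtain ⟨G, hG⟩ : ∃ G, G = ∏ i, (u - Polynomial.aeval s (lam i)) := ⟨_, rfl⟩
  have hG0 : G ≠ 0 := by
    rw [hG]
    exact Finset.prod_ne_zero_iff.2 fun i _ => sub_ne h _
  have hGm : ∀ L : IntermediateField ℂ K, s ∈ L → u ∈ L → G ∈ L := by
    intro L h1 h2
    rw [hG]
    exact _root_.prod_mem fun i _ => sub_mem h2 (aeval_mem L h1 _)
  rw [Finset.prod_pow, ← hG] at hv3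
  have hv0 : v ≠ 0 := by
    rintro rfl
    rw [zero_pow (by norm_num)] at hv3
    exact mul_ne_zero hf0 (pow_ne_zero 2 hG0) hv3.symm
  have hvL : v ^ 3 ∈ L₀ := by
    rw [hv3]
    exact mul_mem (aeval_mem L₀ hs _) (pow_mem (hGm L₀ hs hu) 2)
  have h1 := hone (Polynomial.aeval s f * G * v⁻¹)
    ((hv.inv hvL).mul (mul_mem (aeval_mem L₀ hs _) (hGm L₀ hs hu))) (by
      rw [mul_pow, inv_pow, hv3, ← hG, map_pow]
      field_simp)
  refine good_of h1 fun L g1 g2 g3 => ⟨g1, g2, ?_⟩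
  have h5 : v = (Polynomial.aeval s f * G) / (Polynomial.aeval s f * G * v⁻¹) := by
    field_simp
  rw [h5]
  exact div_mem (mul_mem (aeval_mem L g1 _) (hGm L g1 g2)) g3

/-- one factor of weight 1 and one of weight 2 -/
lemma pen_mixed {s u : K} (h : AlgebraicIndependent ℂ ![s, u]) {f : Polynomial ℂ} (hf : f ≠ 0)
    {l₁ l₂ : Polynomial ℂ} (hl : l₁ ≠ l₂) {v : K}
    (hv3 : v ^ 3 = Polynomial.aeval s f * ((u - Polynomial.aeval s l₁) *
      (u - Polynomial.aeval s l₂) ^ 2)) : Good s u v := by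
  have hf0 := aeval_ne h hf
  have hg2 := sub_ne h l₂
  obtain ⟨τ, hτ⟩ : ∃ τ, τ = v / (u - Polynomial.aeval s l₂) := ⟨_, rfl⟩
  have hv' : v = τ * (u - Polynomial.aeval s l₂) := by rw [hτ]; field_simp
  have hτ3 : τ ^ 3 * (u - Polynomial.aeval s l₂) =
      Polynomial.aeval s f * (u - Polynomial.aeval s l₁) := by
    have h1 : (τ ^ 3 * (u - Polynomial.aeval s l₂)) * (u - Polynomial.aeval s l₂) ^ 2 =
        (Polynomial.aeval s f * (u - Polynomial.aeval s l₁)) * (u - Polynomial.aeval s l₂) ^ 2 := by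
      have h2 : (τ ^ 3 * (u - Polynomial.aeval s l₂)) * (u - Polynomial.aeval s l₂) ^ 2 = v ^ 3 := by
        rw [hv']; ring
      rw [h2, hv3]; ring
    exact mul_right_cancel₀ (pow_ne_zero 2 hg2) h1
  have hd : Polynomial.aeval s l₂ - Polynomial.aeval s l₁ ≠ 0 := by
    rw [← map_sub]
    exact aeval_ne h (sub_ne_zero.2 hl.symm)
  have h3 : u * (τ ^ 3 - Polynomial.aeval s f) =
      τ ^ 3 * Polynomial.aeval s l₂ - Polynomial.aeval s f * Polynomial.aeval s l₁ := by
    linear_combination hτ3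
  have h4 : τ ^ 3 - Polynomial.aeval s f ≠ 0 := by
    intro h5
    rw [h5, mul_zero, sub_eq_zero.1 h5, ← mul_sub] at h3
    exact mul_ne_zero hf0 hd h3.symm
  have hs1 : s ∈ IntermediateField.adjoin ℂ {s, τ} := IntermediateField.subset_adjoin _ _ (by simp)
  have ht1 : τ ∈ IntermediateField.adjoin ℂ {s, τ} := IntermediateField.subset_adjoin _ _ (by simp)
  have hu1 : u ∈ IntermediateField.adjoin ℂ {s, τ} := by
    rw [(eq_div_iff h4).2 h3]
    exact div_mem (sub_mem (mul_mem (pow_mem ht1 3) (aeval_mem _ hs1 _))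
      (mul_mem (aeval_mem _ hs1 _) (aeval_mem _ hs1 _))) (sub_mem (pow_mem ht1 3)
      (aeval_mem _ hs1 _))
  refine good_of_two h hs1 hu1 ?_
  rw [hv']
  exact mul_mem ht1 (sub_mem hu1 (aeval_mem _ hs1 _))

theorem t_PEN : S_CUR → S_LS → S_PEN := by
  intro hCUR hLS K _ _ s u h L₀ hs hu f hf m lam w hlam hw hm v hv hv3
  have hf0 := aeval_ne h hf
  rcases hm with hm | ⟨rfl, e, he⟩
  · interval_cases m
    · rw [Finset.univ_eq_empty, Finset.prod_empty, mul_one] at hv3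
      exact hCUR h hs hu hf hv hv3
    · rw [Fin.prod_univ_one] at hv3
      obtain ⟨g, hg⟩ : ∃ g, g = u - Polynomial.aeval s (lam 0) := ⟨_, rfl⟩
      have hg0 : g ≠ 0 := hg ▸ sub_ne h _
      have hug : u = g + Polynomial.aeval s (lam 0) := by rw [hg]; ring
      rw [← hg] at hv3
      rcases hw 0 with h1 | h1
      · rw [h1, pow_one] at hv3
        have hs1 : s ∈ IntermediateField.adjoin ℂ {s, v} :=
          IntermediateField.subset_adjoin _ _ (by simp)
        have hv1 : v ∈ IntermediateField.adjoin ℂ {s, v} :=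
          IntermediateField.subset_adjoin _ _ (by simp)
        refine good_of_two h hs1 ?_ hv1
        have h2 : g = v ^ 3 / Polynomial.aeval s f := by rw [hv3]; field_simp
        rw [hug, h2]
        exact add_mem (div_mem (pow_mem hv1 3) (aeval_mem _ hs1 _)) (aeval_mem _ hs1 _)
      · rw [h1] at hv3
        have hv0 : v ≠ 0 := by
          rintro rfl
          rw [zero_pow (by norm_num)] at hv3
          exact mul_ne_zero hf0 (pow_ne_zero 2 hg0) hv3.symm
        obtain ⟨τ, hτ⟩ : ∃ τ, τ = v / g := ⟨_, rfl⟩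
        have hs1 : s ∈ IntermediateField.adjoin ℂ {s, τ} :=
          IntermediateField.subset_adjoin _ _ (by simp)
        have hv1 : τ ∈ IntermediateField.adjoin ℂ {s, τ} :=
          IntermediateField.subset_adjoin _ _ (by simp)
        have hg1 : g ∈ IntermediateField.adjoin ℂ {s, τ} := by
          have h2 : g = Polynomial.aeval s f / τ ^ 3 := by
            rw [hτ, div_pow, hv3]; field_simp
          rw [h2]
          exact div_mem (aeval_mem _ hs1 _) (pow_mem hv1 3)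
        refine good_of_two h hs1 ?_ ?_
        · rw [hug]
          exact add_mem hg1 (aeval_mem _ hs1 _)
        · have h2 : v = τ * g := by rw [hτ]; field_simp
          rw [h2]
          exact mul_mem hv1 hg1
    · have h01 : lam 0 ≠ lam 1 := fun h => absurd (hlam h) (by decide)
      rcases hw 0 with h0 | h0 <;> rcases hw 1 with h1 | h1
      · rw [Fin.prod_univ_two, h0, h1, pow_one, pow_one] at hv3
        exact pen_two hLS h hs hu hf h01 hv hv3
      · rw [Fin.prod_univ_two, h0, h1, pow_one] at hv3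
        exact pen_mixed h hf h01 hv3
      · rw [Fin.prod_univ_two, h0, h1, pow_one, mul_comm ((u - _) ^ 2)] at hv3
        exact pen_mixed h hf h01.symm hv3
      · refine pen_flip h hs hu hf (lam := lam) hv ?_ ?_
        · rw [hv3, Fin.prod_univ_two, Fin.prod_univ_two, h0, h1]
        · intro v' hv' hv3'
          rw [Fin.prod_univ_two] at hv3'
          exact pen_two hLS h hs hu (pow_ne_zero 2 hf) h01 hv' hv3'
  · have h01 : lam 0 ≠ lam 1 := fun h => absurd (hlam h) (by decide)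
    have h02 : lam 0 ≠ lam 2 := fun h => absurd (hlam h) (by decide)
    have h12 : lam 1 ≠ lam 2 := fun h => absurd (hlam h) (by decide)
    rcases hw 0 with h0 | h0
    · have he1 : e = 1 := (he 0).symm.trans h0
      simp only [he, he1, pow_one] at hv3
      rw [Fin.prod_univ_three] at hv3
      exact pen_three hLS h hs hu hf h01 h02 h12 hv hv3
    · have he1 : e = 2 := (he 0).symm.trans h0
      simp only [he, he1] at hv3
      refine pen_flip h hs hu hf (lam := lam) hv hv3 ?_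
      intro v' hv' hv3'
      rw [Fin.prod_univ_three] at hv3'
      exact pen_three hLS h hs hu (pow_ne_zero 2 hf) h01 h02 h12 hv' hv3'

end Pool.Agent.J4H57.TL
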